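import Pool.Agent.H242.GX.Stm

set_option autoImplicit false

open Set Filter Topology
open scoped ContDiff

namespace Pool.Agent.H404.GX.SMAP

open Pool.Agent.H242.GX

theorem per_of (g : ℝ × ℝ → ℝ) (hg : Continuous g)
    (h : ∀ θ t : ℝ, t * g (θ + 2 * Real.pi, t) = t * g (θ, t)) :
    ∀ θ t : ℝ, g (θ + 2 * Real.pi, t) = g (θ, t) := by
  intro θ t
  have h1 : Continuous fun t => g (θ + 2 * Real.pi, t) := by fun_prop
  have h2 : Continuous fun t => g (θ, t) := by fun_prop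
  have h3 := Continuous.ext_on (dense_compl_singleton (0 : ℝ)) h1 h2
    (fun s hs => mul_left_cancel₀ hs (h θ s))
  exact congrFun h3 t

theorem val_of (g : ℝ × ℝ → ℝ) (hg : ContDiff ℝ ∞ g) (θ : ℝ) (f : ℝ → ℝ) (f' : ℝ)
    (hf : HasDerivAt f f' 0) (h : ∀ t : ℝ, f t = t * g (θ, t)) : g (θ, 0) = f' := by
  have h1 : DifferentiableAt ℝ (fun t : ℝ => g (θ, t)) 0 := by
    have hd : Differentiable ℝ g := hg.differentiable (by simp)
    fun_prop
  have h2 := (hasDerivAt_id (0 : ℝ)).mul h1.hasDerivAt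
  have h3 : f = (id * fun t : ℝ => g (θ, t)) := by
    funext t
    exact h t
  rw [h3] at hf
  have h4 := h2.unique hf
  simp only [one_mul, id, zero_mul, add_zero] at h4
  exact h4

theorem Z_per {X Z : ℝ × ℝ → ℝ × ℝ} (hW : Web X Z) (φ r : ℝ) :
    Z (φ + 2 * Real.pi, r) = ((Z (φ, r)).1 + 2 * Real.pi, (Z (φ, r)).2) := by
  have h1 := hW.per (Z (φ, r)).1 (Z (φ, r)).2
  have h2 : ((Z (φ, r)).1, (Z (φ, r)).2) = Z (φ, r) := rfl
  rw [h2, hW.right] at h1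
  have h3 := hW.left ((Z (φ, r)).1 + 2 * Real.pi, (Z (φ, r)).2)
  rw [h1] at h3
  exact h3

theorem Sm_per {X Z : ℝ × ℝ → ℝ × ℝ} (hW : Web X Z) (θ t : ℝ) :
    Sm X Z (θ + 2 * Real.pi, t) = ((Sm X Z (θ, t)).1 + 2 * Real.pi, (Sm X Z (θ, t)).2) := by
  unfold Sm
  show Z ((X (θ + 2 * Real.pi, -t)).1, -(X (θ + 2 * Real.pi, -t)).2) = _
  rw [hW.per]
  exact Z_per hW _ _

theorem Z_axis {X Z : ℝ × ℝ → ℝ × ℝ} (hW : Web X Z) (θ : ℝ) : Z (θ, 0) = (θ, 0) := by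
  have h := hW.left (θ, 0)
  rw [hW.axis] at h
  exact h

theorem Sm_axis {X Z : ℝ × ℝ → ℝ × ℝ} (hW : Web X Z) (θ : ℝ) : Sm X Z (θ, 0) = (θ, 0) := by
  unfold Sm
  show Z ((X (θ, -0)).1, -(X (θ, -0)).2) = _
  rw [neg_zero, hW.axis]
  show Z (θ, -0) = (θ, 0)
  rw [neg_zero]
  exact Z_axis hW θ

theorem Sm_smooth {X Z : ℝ × ℝ → ℝ × ℝ} (hW : Web X Z) : ContDiff ℝ ∞ (Sm X Z) := by
  have hX := hW.smX
  have hZ := hW.smZ
  unfold Sm
  fun_prop

theorem Sm_deriv {X Z : ℝ × ℝ → ℝ × ℝ} (hW : Web X Z) (θ : ℝ) :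
    HasDerivAt (fun t => Sm X Z (θ, t)) (-2 * deriv (fun t => (X (θ, t)).1) 0, 1) 0 := by
  have hXd : Differentiable ℝ X := hW.smX.differentiable (by simp)
  have hZd : Differentiable ℝ Z := hW.smZ.differentiable (by simp)
  obtain ⟨a, ha⟩ : ∃ a : ℝ, a = deriv (fun t => (X (θ, t)).1) 0 := ⟨_, rfl⟩
  obtain ⟨b, hb⟩ : ∃ b : ℝ, b = deriv (fun t => (X (θ, t)).2) 0 := ⟨_, rfl⟩
  have h1 : HasDerivAt (fun t => (X (θ, t)).1) a 0 := by
    rw [ha]
    apply DifferentiableAt.hasDerivAt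
    fun_prop
  have h2 : HasDerivAt (fun t => (X (θ, t)).2) b 0 := by
    rw [hb]
    apply DifferentiableAt.hasDerivAt
    fun_prop
  have hX : HasDerivAt (fun t => X (θ, t)) (a, b) 0 := h1.prodMk h2
  obtain ⟨D, hD⟩ : ∃ D : ℝ × ℝ →L[ℝ] ℝ × ℝ, HasFDerivAt Z D (θ, 0) := ⟨_, (hZd _).hasFDerivAt⟩
  -- first direction
  have e1 : D (a, b) = (0, 1) := by
    have h3 : HasFDerivAt Z D ((fun t => X (θ, t)) 0) := by
      show HasFDerivAt Z D (X (θ, 0))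
      rw [hW.axis]
      exact hD
    have h4 := h3.comp_hasDerivAt (0 : ℝ) hX
    have h5 : (Z ∘ fun t => X (θ, t)) = fun t => (θ, t) := by
      funext t
      exact hW.left _
    rw [h5] at h4
    have h6 : HasDerivAt (fun t : ℝ => (θ, t)) ((0 : ℝ), (1 : ℝ)) 0 :=
      (hasDerivAt_const (0 : ℝ) θ).prodMk (hasDerivAt_id (0 : ℝ))
    exact h4.unique h6
  have e2 : D (1, 0) = (1, 0) := by
    have h6 : HasDerivAt (fun s : ℝ => (s, (0 : ℝ))) ((1 : ℝ), (0 : ℝ)) θ :=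
      (hasDerivAt_id θ).prodMk (hasDerivAt_const θ (0 : ℝ))
    have h3 : HasFDerivAt Z D ((fun s : ℝ => (s, (0 : ℝ))) θ) := hD
    have h4 := h3.comp_hasDerivAt θ h6
    have h5 : (Z ∘ fun s : ℝ => (s, (0 : ℝ))) = fun s : ℝ => (s, (0 : ℝ)) := by
      funext s
      exact Z_axis hW s
    rw [h5] at h4
    exact h4.unique h6
  have hneg : HasDerivAt (fun t : ℝ => -t) (-1) 0 := hasDerivAt_neg (0 : ℝ)
  have n1 : HasDerivAt (fun t => (X (θ, -t)).1) (-a) 0 := by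
    have h3 : HasDerivAt (fun t => (X (θ, t)).1) a (-0) := by rw [neg_zero]; exact h1
    have h4 := h3.comp (0 : ℝ) hneg
    have h5 : a * -1 = -a := by ring
    rw [h5] at h4
    exact h4
  have n2 : HasDerivAt (fun t => -(X (θ, -t)).2) b 0 := by
    have h3 : HasDerivAt (fun t => (X (θ, t)).2) b (-0) := by rw [neg_zero]; exact h2
    have h4 := (h3.comp (0 : ℝ) hneg).neg
    have h5 : -(b * -1) = b := by ring
    rw [h5] at h4
    exact h4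
  have n3 : HasDerivAt (fun t => ((X (θ, -t)).1, -(X (θ, -t)).2)) (-a, b) 0 := n1.prodMk n2
  have h3 : HasFDerivAt Z D ((fun t => ((X (θ, -t)).1, -(X (θ, -t)).2)) 0) := by
    show HasFDerivAt Z D ((X (θ, -0)).1, -(X (θ, -0)).2)
    rw [neg_zero, hW.axis]
    show HasFDerivAt Z D (θ, -0)
    rw [neg_zero]
    exact hD
  have h4 := h3.comp_hasDerivAt (0 : ℝ) n3
  have h5 : D (-a, b) = (-2 * a, 1) := by
    have h6 : ((-a, b) : ℝ × ℝ) = (a, b) - (2 * a) • ((1 : ℝ), (0 : ℝ)) := by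
      ext
      · simp only [Prod.smul_mk, Prod.mk_sub_mk, smul_eq_mul, mul_one]
        ring
      · simp only [Prod.smul_mk, Prod.mk_sub_mk, smul_eq_mul, mul_zero, sub_zero]
    rw [h6, map_sub, map_smul, e1, e2]
    ext
    · simp only [Prod.smul_mk, Prod.mk_sub_mk, smul_eq_mul, mul_one]
      ring
    · simp only [Prod.smul_mk, Prod.mk_sub_mk, smul_eq_mul, mul_zero, sub_zero]
  rw [h5, ha] at h4
  exact h4

theorem gx_SMAP (hHAD : S_HAD) : S_SMAP := by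
  intro X Z hW
  have hS := Sm_smooth hW
  obtain ⟨g1, hg1, h1⟩ := hHAD (fun x => (Sm X Z x).1 - x.1) (by fun_prop) (by
    intro θ
    show (Sm X Z (θ, 0)).1 - θ = 0
    rw [Sm_axis hW, sub_self])
  obtain ⟨g2, hg2, h2⟩ := hHAD (fun x => (Sm X Z x).2) (by fun_prop) (by
    intro θ
    show (Sm X Z (θ, 0)).2 = 0
    rw [Sm_axis hW])
  have h1' : ∀ θ t : ℝ, (Sm X Z (θ, t)).1 - θ = t * g1 (θ, t) := h1
  have h2' : ∀ θ t : ℝ, (Sm X Z (θ, t)).2 = t * g2 (θ, t) := h2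
  have p1 : ∀ θ t : ℝ, g1 (θ + 2 * Real.pi, t) = g1 (θ, t) := by
    apply per_of g1 hg1.continuous
    intro θ t
    rw [← h1', ← h1', Sm_per hW]
    ring
  have p2 : ∀ θ t : ℝ, g2 (θ + 2 * Real.pi, t) = g2 (θ, t) := by
    apply per_of g2 hg2.continuous
    intro θ t
    rw [← h2', ← h2', Sm_per hW]
  have hd1 : ∀ θ : ℝ, HasDerivAt (fun t => (Sm X Z (θ, t)).1 - θ)
      (-2 * deriv (fun t => (X (θ, t)).1) 0) 0 := by
    intro θ
    have := (Sm_deriv hW θ).fst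
    exact this.sub_const θ
  have hd2 : ∀ θ : ℝ, HasDerivAt (fun t => (Sm X Z (θ, t)).2) 1 0 := fun θ => (Sm_deriv hW θ).snd
  refine ⟨fun x => - g1 x, g2, hg1.neg, hg2, ?_, p2, ?_, ?_, ?_⟩
  · intro θ t
    show - g1 (θ + 2 * Real.pi, t) = - g1 (θ, t)
    rw [p1]
  · intro θ
    show 0 < - g1 (θ, 0)
    rw [val_of g1 hg1 θ _ _ (hd1 θ) (h1' θ)]
    have := hW.der1 θ
    linarith
  · intro θ
    exact val_of g2 hg2 θ _ _ (hd2 θ) (h2' θ)
  · intro θ t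
    have q1 := h1' θ t
    have q2 := h2' θ t
    ext
    · show (Sm X Z (θ, t)).1 = θ - t * (- g1 (θ, t))
      linarith
    · exact q2

end Pool.Agent.H404.GX.SMAP
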