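import Pool.Agent.H242.GX.Stm4

/-! # `S_EVENK` (helper404; the first part is adapted from helper286's `gx_EVENM`) -/

set_option autoImplicit false

open Set Filter Topology
open scoped ContDiff

namespace Pool.Agent.H404.GX

open Pool.Agent.H242.GX

theorem deriv_zero {f : ℝ → ℝ} (hf : DifferentiableAt ℝ f 0) (h0 : ∀ y ≤ 0, f y = 0) :
    deriv f 0 = 0 := by
  have h1 := hf.hasDerivAt.hasDerivWithinAt (s := Set.Iic 0)
  have h2 : HasDerivWithinAt f 0 (Set.Iic 0) 0 :=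
    (hasDerivWithinAt_const (0 : ℝ) (Set.Iic (0 : ℝ)) (0 : ℝ)).congr (fun y hy => h0 y hy)
      (h0 0 le_rfl)
  exact (uniqueDiffWithinAt_Iic (0 : ℝ)).eq_deriv _ h1 h2

theorem diff_y {P : ℝ × ℝ → ℝ} (hP : ContDiff ℝ ∞ P) (φ : ℝ) :
    DifferentiableAt ℝ (fun y => P (φ, y)) 0 := by
  have h1 : ContDiff ℝ ∞ (fun y : ℝ => P (φ, y)) := hP.comp (contDiff_const.prodMk contDiff_id)
  exact (h1.differentiable (by simp)).differentiableAt

theorem odd_add (X : ℝ × ℝ → ℝ × ℝ) (H P : ℝ × ℝ → ℝ) (θ t : ℝ) :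
    Odd X (fun x => H x + P x) θ t = Odd X H θ t + Odd X P θ t := by
  unfold Pool.Agent.H242.GX.Odd
  ring

theorem flat_add {X : ℝ × ℝ → ℝ × ℝ} {H P : ℝ × ℝ → ℝ} (hH : Flat X H) (hP : Flat X P) :
    Flat X (fun x => H x + P x) := by
  intro N
  obtain ⟨E, h1, h2, h3⟩ := hH N
  obtain ⟨F, k1, k2, k3⟩ := hP N
  refine ⟨fun x => E x + F x, h1.add k1, fun θ t => ?_, fun θ t => ?_⟩
  · change E _ + F _ = E _ + F _
    rw [h2, k2]
  · rw [odd_add, h3, k3]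
    ring

/-- The case `θ₀ = 0`. -/
theorem even0 (hPRE : S_PRE) (hFLAT0 : S_FLAT0) (hCORRK : S_CORRK) {X Z : ℝ × ℝ → ℝ × ℝ}
    (w : Web X Z) {H0 : ℝ × ℝ → ℝ} (a1 : ContDiff ℝ ∞ H0)
    (a2 : ∀ φ y : ℝ, H0 (φ + 2 * Real.pi, y) = H0 (φ, y)) (a3 : ∀ φ : ℝ, H0 (φ, 0) = 0)
    (a5 : Flat X H0) :
    ∃ H : ℝ × ℝ → ℝ, ContDiff ℝ ∞ H ∧ (∀ φ y : ℝ, H (φ + 2 * Real.pi, y) = H (φ, y)) ∧
      (∀ φ : ℝ, H (φ, 0) = 0) ∧
      (∀ φ : ℝ, deriv (fun y => H (φ, y)) 0 = deriv (fun y => H0 (φ, y)) 0) ∧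
      ∃ c : ℝ, 0 < c ∧
        (∀ θ t : ℝ, |t| < c * θ → |t| < c * (2 * Real.pi - θ) → Odd X H θ t = 0) ∧
        ∀ t : ℝ, |t| < c → Odd X H 0 t = 0 := by
  obtain ⟨P1, b1, b2, b3, r1, hr1, b4⟩ := hPRE X Z w H0 a1 a2 a5
  have c1 : ContDiff ℝ ∞ (fun x => H0 x + P1 x) := a1.add b1
  have c2 : ∀ φ y : ℝ, (fun x => H0 x + P1 x) (φ + 2 * Real.pi, y) =
      (fun x => H0 x + P1 x) (φ, y) := by
    intro φ y
    change H0 _ + P1 _ = H0 _ + P1 _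
    rw [a2, b2]
  have c3 : Flat X (fun x => H0 x + P1 x) :=
    flat_add a5 (hFLAT0 X Z w P1 b1 b2 b3)
  obtain ⟨P2, d1, d2, d3, ⟨r2, hr2, d4⟩, c, hc, d5⟩ := hCORRK X Z w _ c1 c2 c3
  refine ⟨fun x => (fun x => H0 x + P1 x) x + P2 x, c1.add d1, ?_, ?_, ?_,
    min c (min r1 r2), lt_min hc (lt_min hr1 hr2), ?_, ?_⟩
  · intro φ y
    change (H0 _ + P1 _) + P2 _ = (H0 _ + P1 _) + P2 _
    rw [a2, b2, d2]
  · intro φ
    change (H0 _ + P1 _) + P2 _ = 0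
    rw [a3, b3 _ _ le_rfl, d3 _ _ le_rfl]
    ring
  · intro φ
    have e1 : deriv (fun y => (H0 (φ, y) + P1 (φ, y)) + P2 (φ, y)) 0 =
        deriv (fun y => H0 (φ, y)) 0 := by
      have h1 := (diff_y a1 φ).hasDerivAt
      have h2 := (diff_y b1 φ).hasDerivAt
      have h3 := (diff_y d1 φ).hasDerivAt
      rw [deriv_zero (diff_y b1 φ) (fun y hy => b3 φ y hy)] at h2
      rw [deriv_zero (diff_y d1 φ) (fun y hy => d3 φ y hy)] at h3
      have h4 := ((h1.add h2).add h3).deriv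
      rw [add_zero, add_zero] at h4
      exact h4
    exact e1
  · intro θ t h1 h2
    have hm : 0 < min c (min r1 r2) := lt_min hc (lt_min hr1 hr2)
    have hθ : 0 < θ := by
      have h3 : 0 < min c (min r1 r2) * θ := (abs_nonneg t).trans_lt h1
      exact (mul_pos_iff_of_pos_left hm).1 h3
    have hθ' : 0 < 2 * Real.pi - θ := by
      have h3 : 0 < min c (min r1 r2) * (2 * Real.pi - θ) := (abs_nonneg t).trans_lt h2
      exact (mul_pos_iff_of_pos_left hm).1 h3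
    exact d5 θ t (h1.trans_le (mul_le_mul_of_nonneg_right (min_le_left _ _) hθ.le))
      (h2.trans_le (mul_le_mul_of_nonneg_right (min_le_left _ _) hθ'.le))
  · intro t ht
    have ht1 : |t| < r1 := ht.trans_le ((min_le_right _ _).trans (min_le_left _ _))
    have ht2 : |t| < r2 := ht.trans_le ((min_le_right _ _).trans (min_le_right _ _))
    rw [odd_add X (fun x => H0 x + P1 x) P2, b4 t ht1, zero_add]
    unfold Pool.Agent.H242.GX.Odd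
    rw [d4 t ht2, d4 (-t) (by rw [abs_neg]; exact ht2), sub_zero]

/-- The translation of the angle. -/
def sh (X : ℝ × ℝ → ℝ × ℝ) (a : ℝ) (x : ℝ × ℝ) : ℝ × ℝ :=
  ((X (x.1 + a, x.2)).1 - a, (X (x.1 + a, x.2)).2)

theorem sh_smooth {X : ℝ × ℝ → ℝ × ℝ} (hX : ContDiff ℝ ∞ X) (a : ℝ) : ContDiff ℝ ∞ (sh X a) := by
  have h1 : ContDiff ℝ ∞ (fun x : ℝ × ℝ => (x.1 + a, x.2)) :=
    (contDiff_fst.add contDiff_const).prodMk contDiff_snd
  have h2 : ContDiff ℝ ∞ (fun x : ℝ × ℝ => X (x.1 + a, x.2)) := hX.comp h1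
  exact (h2.fst.sub contDiff_const).prodMk h2.snd

theorem sh_left {X Z : ℝ × ℝ → ℝ × ℝ} (h : ∀ x, Z (X x) = x) (a : ℝ) (x : ℝ × ℝ) :
    sh Z a (sh X a x) = x := by
  change ((Z ((X (x.1 + a, x.2)).1 - a + a, (X (x.1 + a, x.2)).2)).1 - a,
    (Z ((X (x.1 + a, x.2)).1 - a + a, (X (x.1 + a, x.2)).2)).2) = x
  rw [sub_add_cancel, Prod.mk.eta, h]
  change (x.1 + a - a, x.2) = x
  rw [add_sub_cancel_right]

theorem sh_web {X Z : ℝ × ℝ → ℝ × ℝ} (w : Web X Z) (a : ℝ) : Web (sh X a) (sh Z a) where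
  smX := sh_smooth w.smX a
  smZ := sh_smooth w.smZ a
  left := sh_left w.left a
  right := sh_left w.right a
  per := by
    intro θ t
    change ((X (θ + 2 * Real.pi + a, t)).1 - a, (X (θ + 2 * Real.pi + a, t)).2) =
      ((X (θ + a, t)).1 - a + 2 * Real.pi, (X (θ + a, t)).2)
    rw [show θ + 2 * Real.pi + a = θ + a + 2 * Real.pi by ring, w.per]
    change ((X (θ + a, t)).1 + 2 * Real.pi - a, (X (θ + a, t)).2) = _
    rw [show (X (θ + a, t)).1 + 2 * Real.pi - a = (X (θ + a, t)).1 - a + 2 * Real.pi by ring]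
  axis := by
    intro θ
    change ((X (θ + a, 0)).1 - a, (X (θ + a, 0)).2) = (θ, 0)
    rw [w.axis]
    change (θ + a - a, (0 : ℝ)) = (θ, 0)
    rw [add_sub_cancel_right]
  sgn := fun θ t h => w.sgn (θ + a) t h
  sgn' := fun θ t h => w.sgn' (θ + a) t h
  der1 := by
    intro θ
    change 0 < deriv (fun t => (X (θ + a, t)).1 - a) 0
    rw [deriv_sub_const]
    exact w.der1 (θ + a)
  der2 := fun θ => w.der2 (θ + a)

theorem odd_sh (X : ℝ × ℝ → ℝ × ℝ) (H : ℝ × ℝ → ℝ) (a θ t : ℝ) :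
    Odd (sh X a) (fun x => H (x.1 + a, x.2)) θ t = Odd X H (θ + a) t := by
  change H ((X (θ + a, t)).1 - a + a, (X (θ + a, t)).2 ^ 2) -
    H ((X (θ + a, -t)).1 - a + a, (X (θ + a, -t)).2 ^ 2) =
    H ((X (θ + a, t)).1, (X (θ + a, t)).2 ^ 2) - H ((X (θ + a, -t)).1, (X (θ + a, -t)).2 ^ 2)
  rw [sub_add_cancel, sub_add_cancel]

theorem odd_sh' (X : ℝ × ℝ → ℝ × ℝ) (H : ℝ × ℝ → ℝ) (a θ t : ℝ) :
    Odd X (fun x => H (x.1 - a, x.2)) θ t = Odd (sh X a) H (θ - a) t := by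
  change H ((X (θ, t)).1 - a, (X (θ, t)).2 ^ 2) - H ((X (θ, -t)).1 - a, (X (θ, -t)).2 ^ 2) =
    H ((X (θ - a + a, t)).1 - a, (X (θ - a + a, t)).2 ^ 2) -
      H ((X (θ - a + a, -t)).1 - a, (X (θ - a + a, -t)).2 ^ 2)
  rw [sub_add_cancel]

theorem flat_sh {X : ℝ × ℝ → ℝ × ℝ} {H : ℝ × ℝ → ℝ} (hH : Flat X H) (a : ℝ) :
    Flat (sh X a) (fun x => H (x.1 + a, x.2)) := by
  intro N
  obtain ⟨E, h1, h2, h3⟩ := hH N
  refine ⟨fun x => E (x.1 + a, x.2),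
    h1.comp ((contDiff_fst.add contDiff_const).prodMk contDiff_snd), fun θ t => ?_,
    fun θ t => ?_⟩
  · change E (θ + 2 * Real.pi + a, t) = E (θ + a, t)
    rw [show θ + 2 * Real.pi + a = θ + a + 2 * Real.pi by ring, h2]
  · rw [odd_sh, h3]

theorem gx_EVENK (hPRE : S_PRE) (hFLAT0 : S_FLAT0) (hCORRK : S_CORRK) : S_EVENK := by
  intro X Z w a H0 a1 a2 a3 a5
  have e1 : ContDiff ℝ ∞ (fun x : ℝ × ℝ => H0 (x.1 + a, x.2)) :=
    a1.comp ((contDiff_fst.add contDiff_const).prodMk contDiff_snd)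
  have e2 : ∀ φ y : ℝ, (fun x : ℝ × ℝ => H0 (x.1 + a, x.2)) (φ + 2 * Real.pi, y) =
      (fun x : ℝ × ℝ => H0 (x.1 + a, x.2)) (φ, y) := by
    intro φ y
    change H0 (φ + 2 * Real.pi + a, y) = H0 (φ + a, y)
    rw [show φ + 2 * Real.pi + a = φ + a + 2 * Real.pi by ring, a2]
  have e3 : ∀ φ : ℝ, (fun x : ℝ × ℝ => H0 (x.1 + a, x.2)) (φ, 0) = 0 := fun φ => a3 (φ + a)
  obtain ⟨H, f1, f2, f3, f4, c, hc, f5, f6⟩ :=
    even0 hPRE hFLAT0 hCORRK (sh_web w a) e1 e2 e3 (flat_sh a5 a)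
  refine ⟨fun x => H (x.1 - a, x.2),
    f1.comp ((contDiff_fst.sub contDiff_const).prodMk contDiff_snd), ?_, fun φ => f3 (φ - a), ?_,
    c, hc, ?_, ?_⟩
  · intro φ y
    change H (φ + 2 * Real.pi - a, y) = H (φ - a, y)
    rw [show φ + 2 * Real.pi - a = φ - a + 2 * Real.pi by ring, f2]
  · intro φ
    change deriv (fun y => H (φ - a, y)) 0 = _
    rw [f4 (φ - a)]
    change deriv (fun y => H0 (φ - a + a, y)) 0 = _
    rw [sub_add_cancel]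
  · intro θ t h1 h2
    rw [odd_sh']
    refine f5 (θ - a) t h1 ?_
    rw [show 2 * Real.pi - (θ - a) = a + 2 * Real.pi - θ by ring]
    exact h2
  · intro t ht
    rw [odd_sh', sub_self]
    exact f6 t ht

end Pool.Agent.H404.GX
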